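import Pool.Agent.Q41.SP.Stm3

/-!
Project SP (helper41), N7: the derivative.
-/

set_option autoImplicit false

namespace Pool.Agent.Q98.SP

open Finset Polynomial
open Pool.Agent.Q41.SU Pool.Agent.Q41.SP

universe u

section
variable {E : Type u} [Field E]

/-- the coefficients of `δ ^ n` -/
noncomputable def cf (n : ℕ) (g : (PowerSeries E)[X]) : E[X] :=
  ∑ i ∈ range (g.natDegree + 1), C (PowerSeries.coeff n (g.coeff i)) * X ^ i

theorem cf_eval (n : ℕ) (g : (PowerSeries E)[X]) (x : E) :
    (cf n g).eval x = PowerSeries.coeff n (g.eval (PowerSeries.C x)) := by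
  unfold cf
  rw [eval_finsetSum, eval_eq_sum_range (p := g), map_sum]
  refine sum_congr rfl fun i _ => ?_
  rw [eval_mul, eval_C, eval_pow, eval_X, ← map_pow, PowerSeries.coeff_mul_C]

theorem cf_deg (n : ℕ) (g : (PowerSeries E)[X]) : (cf n g).natDegree ≤ g.natDegree := by
  unfold cf
  refine natDegree_sum_le_of_forall_le _ _ fun i hi => ?_
  rw [mem_range] at hi
  exact (natDegree_C_mul_X_pow_le _ _).trans (by omega)

theorem dv_eval {M : ℕ} {G : (PowerSeries E)[X][X]} (h : Dv M G) (u v : PowerSeries E) :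
    (PowerSeries.X : PowerSeries E) ^ M ∣ G.evalEval u v := by
  unfold evalEval
  rw [eval_eq_sum_range (p := G), eval_finsetSum]
  refine dvd_sum fun i _ => ?_
  rw [eval_mul, eval_pow, eval_C]
  refine Dvd.dvd.mul_right ?_ _
  rw [eval_eq_sum_range]
  refine dvd_sum fun j _ => ?_
  exact Dvd.dvd.mul_right (h i j) _

theorem pow_ord {M L b : ℕ} (hM : L * b < M) {w : PowerSeries E}
    (h : (PowerSeries.X : PowerSeries E) ^ M ∣ w ^ b) :
    (PowerSeries.X : PowerSeries E) ^ (L + 1) ∣ w := by
  rw [pow_dvd_iff_le_emultiplicity] at h ⊢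
  rw [emultiplicity_pow PowerSeries.X_prime] at h
  by_contra hcon
  push Not at hcon
  have h1 : emultiplicity (PowerSeries.X : PowerSeries E) w ≤ (L : ℕ∞) := by
    have h2 : emultiplicity (PowerSeries.X : PowerSeries E) w ≠ ⊤ := hcon.ne_top
    lift emultiplicity (PowerSeries.X : PowerSeries E) w to ℕ using h2 with e he
    have h3 : e < L + 1 := by exact_mod_cast hcon
    exact_mod_cast Nat.lt_succ_iff.1 h3
  have h4 : (M : ℕ∞) ≤ (b : ℕ∞) * L := h.trans (mul_le_mul_right h1 _)
  have h5 : M ≤ b * L := by exact_mod_cast h4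
  rw [mul_comm] at h5
  omega

theorem pow_low (l t : ℕ) [Fact l.Prime] [CharP E l] (y : PowerSeries E) :
    ∃ z : PowerSeries E, y ^ l ^ t = PowerSeries.C (PowerSeries.coeff 0 y ^ l ^ t) +
      PowerSeries.C (PowerSeries.coeff 1 y ^ l ^ t) * PowerSeries.X ^ l ^ t +
        PowerSeries.X ^ (2 * l ^ t) * z := by
  have h1 : (PowerSeries.X : PowerSeries E) ^ 2 ∣
      y - (PowerSeries.C (PowerSeries.coeff 0 y) +
        PowerSeries.C (PowerSeries.coeff 1 y) * PowerSeries.X) := by
    rw [PowerSeries.X_pow_dvd_iff]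
    intro m hm
    interval_cases m
    · simp
    · simp [PowerSeries.coeff_C]
  obtain ⟨z, hz⟩ := h1
  have : CharP (PowerSeries E) l := charP_of_injective_ringHom PowerSeries.C_injective l
  refine ⟨z ^ l ^ t, ?_⟩
  have h2 : y = PowerSeries.C (PowerSeries.coeff 0 y) +
      PowerSeries.C (PowerSeries.coeff 1 y) * PowerSeries.X + PowerSeries.X ^ 2 * z := by
    rw [← hz]; ring
  conv_lhs => rw [h2]
  rw [add_pow_char_pow, add_pow_char_pow, mul_pow, mul_pow, map_pow, map_pow, ← pow_mul]

end

theorem t_derP : Pool.Agent.Q41.SP.S_derP.{u} := by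
  intro l r t β₀ H M k E _ _ _ _ _ τ D hτ hl hβ hM G a hG ha hred hpp
  set β : ℕ := l ^ t * β₀ with hβd
  set g : (PowerSeries E)[X] := G.coeff β with hg
  set h : (PowerSeries E)[X] := G.coeff (β - l ^ t) with hh
  have hb0 : (β₀ : E) ≠ 0 := by
    intro h0
    exact hl ((CharP.cast_eq_zero_iff E l β₀).1 h0)
  have hl1 : 1 ≤ l ^ t := Nat.one_le_pow _ _ (Fact.out : l.Prime).pos
  -- the leading coefficient
  have hga : g.map PowerSeries.constantCoeff = a := by
    have h1 : (red G).coeff β = g.map PowerSeries.constantCoeff := by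
      unfold red
      rw [coeff_map]
      rfl
    rw [← h1, hred, coeff_C_mul]
    have h2 : ((X - C (X ^ l ^ r) : E[X][X]) ^ β).coeff β = 1 := by
      have h3 : ((X - C (X ^ l ^ r) : E[X][X]) ^ β).natDegree = β := by
        rw [natDegree_pow, natDegree_X_sub_C, mul_one]
      have h4 : ((X - C (X ^ l ^ r) : E[X][X]) ^ β).Monic := (monic_X_sub_C _).pow _
      rw [Monic, leadingCoeff, h3] at h4
      exact h4
    rw [h2, mul_one]
  have hadeg : a.natDegree ≤ H := by
    rw [← hga]
    exact natDegree_map_le.trans (hG.2 β)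
  refine ⟨-(C (β₀ : E) * cf (l ^ t) g * X ^ l ^ (r + t) + cf (l ^ t) h), C (β₀ : E) * a, ?_, ?_, ?_, ?_⟩
  · exact mul_ne_zero (C_ne_zero.2 hb0) ha
  · rw [natDegree_neg]
    refine (natDegree_add_le _ _).trans (max_le ?_ ?_)
    · refine natDegree_mul_le.trans ?_
      rw [natDegree_X_pow]
      exact Nat.add_le_add_right (((natDegree_C_mul_le _ _).trans (cf_deg _ _)).trans (hG.2 β)) _
    · exact ((cf_deg _ _).trans (hG.2 _)).trans (Nat.le_add_right _ _)
  · exact ((natDegree_C_mul_le _ _).trans hadeg).trans (Nat.le_add_right _ _)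
  · intro x hx hV
    set y : PowerSeries E := tw l r τ x with hy
    have hax : a.eval x ≠ 0 := by
      intro h0
      apply hx
      rw [eval_mul, h0, mul_zero]
    -- the value of `pp`
    have h1 := dv_eval hpp (PowerSeries.C x) y
    have h2 : (pp l t β₀ G).evalEval (PowerSeries.C x) y =
        ((β₀ : PowerSeries E) * g.eval (PowerSeries.C x)) ^ β₀ * G.evalEval (PowerSeries.C x) y -
        g.eval (PowerSeries.C x) * ((β₀ : PowerSeries E) * g.eval (PowerSeries.C x) * y ^ l ^ t +
          h.eval (PowerSeries.C x)) ^ β₀ := by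
      unfold pp evalEval
      simp only [eval_sub, eval_mul, eval_pow, eval_C, eval_add, eval_X, eval_natCast]
      rfl
    rw [h2] at h1
    have h3 : (PowerSeries.X : PowerSeries E) ^ M ∣ g.eval (PowerSeries.C x) *
        ((β₀ : PowerSeries E) * g.eval (PowerSeries.C x) * y ^ l ^ t +
          h.eval (PowerSeries.C x)) ^ β₀ := by
      have h4 : (PowerSeries.X : PowerSeries E) ^ M ∣
          ((β₀ : PowerSeries E) * g.eval (PowerSeries.C x)) ^ β₀ * G.evalEval (PowerSeries.C x) y :=
        Dvd.dvd.mul_left hV _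
      exact (dvd_sub_right h4).1 h1
    have hg0 : PowerSeries.constantCoeff (g.eval (PowerSeries.C x)) = a.eval x := by
      have h4 := eval₂_at_apply (p := g) PowerSeries.constantCoeff (PowerSeries.C x)
      rw [PowerSeries.constantCoeff_C] at h4
      rw [← hga, eval_map, h4]
    have hgu : IsUnit (g.eval (PowerSeries.C x)) := by
      rw [PowerSeries.isUnit_iff_constantCoeff, hg0]
      exact isUnit_iff_ne_zero.2 hax
    have h5 := (hgu.dvd_mul_left).1 h3
    have h6 := pow_ord hM h5
    rw [PowerSeries.X_pow_dvd_iff] at h6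
    have h7 := h6 (l ^ t) (Nat.lt_succ_self _)
    obtain ⟨z, hz⟩ := pow_low l t y
    have hy0 : PowerSeries.coeff 0 y = x ^ l ^ r := by
      rw [hy]
      unfold tw
      rw [RingHom.comp_apply, PowerSeries.coeff_map, iterateFrobenius_def]
      congr 1
      rw [PowerSeries.coeff_zero_eq_constantCoeff_apply]
      exact hτ.const x
    have hy1 : PowerSeries.coeff 1 y = D x ^ l ^ r := by
      rw [hy]
      unfold tw
      rw [RingHom.comp_apply, PowerSeries.coeff_map, iterateFrobenius_def, hτ.der x]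
      rfl
    rw [hz, hy0, hy1, ← pow_mul, ← pow_mul, ← pow_add] at h7
    have h8 : PowerSeries.coeff (l ^ t) ((β₀ : PowerSeries E) * g.eval (PowerSeries.C x) *
        (PowerSeries.C (x ^ l ^ (r + t)) + PowerSeries.C (D x ^ l ^ (r + t)) *
          PowerSeries.X ^ l ^ t + PowerSeries.X ^ (2 * l ^ t) * z) + h.eval (PowerSeries.C x)) =
        (β₀ : E) * (PowerSeries.coeff (l ^ t) (g.eval (PowerSeries.C x)) * x ^ l ^ (r + t) +
          a.eval x * D x ^ l ^ (r + t)) + PowerSeries.coeff (l ^ t) (h.eval (PowerSeries.C x)) := by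
      have e1 : (β₀ : PowerSeries E) * g.eval (PowerSeries.C x) *
        (PowerSeries.C (x ^ l ^ (r + t)) + PowerSeries.C (D x ^ l ^ (r + t)) *
          PowerSeries.X ^ l ^ t + PowerSeries.X ^ (2 * l ^ t) * z) + h.eval (PowerSeries.C x) =
          PowerSeries.C (β₀ : E) * (g.eval (PowerSeries.C x) * PowerSeries.C (x ^ l ^ (r + t)) +
            g.eval (PowerSeries.C x) * PowerSeries.C (D x ^ l ^ (r + t)) * PowerSeries.X ^ l ^ t +
            (g.eval (PowerSeries.C x) * z) * PowerSeries.X ^ (2 * l ^ t)) +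
            h.eval (PowerSeries.C x) := by
        rw [map_natCast]
        ring
      rw [e1, map_add, PowerSeries.coeff_C_mul, map_add, map_add, PowerSeries.coeff_mul_C,
        PowerSeries.coeff_mul_X_pow', PowerSeries.coeff_mul_X_pow', if_pos le_rfl,
        if_neg (by omega), Nat.sub_self, PowerSeries.coeff_mul_C,
        PowerSeries.coeff_zero_eq_constantCoeff_apply, hg0, add_zero]
    rw [h8] at h7
    rw [eval_mul, eval_C, eval_neg, eval_add, eval_mul, eval_mul, eval_C, eval_pow, eval_X, cf_eval,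
      cf_eval]
    linear_combination h7

end Pool.Agent.Q98.SP
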