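import Pool.Agent.Q41.SP.Stm5
import Pool.Agent.Q98.SP.Der

/-!
Project SP (helper41), V7: levels and the twisted Taylor homomorphism.
-/

set_option autoImplicit false

namespace Pool.Agent.Q98.SP

open Finset Polynomial
open Pool.Agent.Q41.SU Pool.Agent.Q41.SP

universe u

section
variable {l : ℕ} {k E : Type u} [Field k] [Field E] [Algebra k E] [Fact l.Prime] [CharP E l]
  {τ : E →ₐ[k] PowerSeries E} {D : Derivation k E E}

theorem tw_zero (hτ : IsHT l τ D) (r : ℕ) (x : E) :
    PowerSeries.coeff 0 (tw l r τ x) = x ^ l ^ r := by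
  unfold tw
  rw [RingHom.comp_apply, PowerSeries.coeff_map, iterateFrobenius_def]
  congr 1
  rw [PowerSeries.coeff_zero_eq_constantCoeff_apply]
  exact hτ.const x

theorem tw_one (hτ : IsHT l τ D) (r : ℕ) (x : E) :
    PowerSeries.coeff 1 (tw l r τ x) = D x ^ l ^ r := by
  unfold tw
  rw [RingHom.comp_apply, PowerSeries.coeff_map, iterateFrobenius_def, hτ.der x]
  rfl

theorem tw_pow (r m : ℕ) (w : E) :
    tw l r τ (w ^ l ^ m) - PowerSeries.C ((w ^ l ^ m) ^ l ^ r) =
      (tw l r τ w - PowerSeries.C (w ^ l ^ r)) ^ l ^ m := by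
  have : CharP (PowerSeries E) l := charP_of_injective_ringHom PowerSeries.C_injective l
  rw [sub_pow_char_pow, map_pow (tw l r τ) w, ← map_pow PowerSeries.C, ← pow_mul, ← pow_mul,
    mul_comm (l ^ m)]

theorem X_dvd_tw (hτ : IsHT l τ D) (r : ℕ) (x : E) :
    (PowerSeries.X : PowerSeries E) ∣ tw l r τ x - PowerSeries.C (x ^ l ^ r) := by
  rw [PowerSeries.X_dvd_iff, map_sub, PowerSeries.constantCoeff_C,
    ← PowerSeries.coeff_zero_eq_constantCoeff_apply, tw_zero hτ, sub_self]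

theorem coeff_one_sub (hτ : IsHT l τ D) (r : ℕ) (x : E) :
    PowerSeries.coeff 1 (tw l r τ x - PowerSeries.C (x ^ l ^ r)) = D x ^ l ^ r := by
  rw [map_sub, tw_one hτ, PowerSeries.coeff_C, if_neg one_ne_zero, sub_zero]

end

theorem t_levP : Pool.Agent.Q41.SP.S_levP.{u} := by
  intro l r K k E _ _ _ _ _ τ D hτ
  have hl : l.Prime := Fact.out
  refine ⟨?_, fun w => ?_, fun w hw h => ?_⟩
  · induction K with
    | zero => intro y _; exact ⟨y, by simp⟩
    | succ K ih =>
      intro y hy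
      have h1 : 2 ≤ l ^ (K + 1) :=
        hl.two_le.trans (Nat.le_self_pow (by omega) l)
      have h2 : PowerSeries.coeff 1 (tw l r τ y - PowerSeries.C (y ^ l ^ r)) = 0 :=
        PowerSeries.X_pow_dvd_iff.1 hy 1 (by omega)
      rw [coeff_one_sub hτ] at h2
      have h3 : D y = 0 := eq_zero_of_pow_eq_zero h2
      obtain ⟨z, rfl⟩ := hτ.ker y h3
      have h4 := tw_pow (τ := τ) r 1 z
      rw [pow_one] at h4
      rw [h4] at hy
      have h5 : (l ^ K - 1) * l < l ^ (K + 1) := by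
        have : 1 ≤ l ^ K := Nat.one_le_pow _ _ hl.pos
        rw [pow_succ]
        exact Nat.mul_lt_mul_of_pos_right (by omega) hl.pos
      have h6 := pow_ord h5 hy
      rw [Nat.sub_add_cancel (Nat.one_le_pow _ _ hl.pos)] at h6
      obtain ⟨w, hw⟩ := ih z h6
      refine ⟨w, ?_⟩
      rw [hw, ← pow_mul, ← pow_succ]
  · rw [tw_pow]
    exact pow_dvd_pow_of_dvd (X_dvd_tw hτ r w) _
  · rw [tw_pow] at h
    have h1 := pow_ord (L := 1) (by omega) h
    have h2 : PowerSeries.coeff 1 (tw l r τ w - PowerSeries.C (w ^ l ^ r)) = 0 :=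
      PowerSeries.X_pow_dvd_iff.1 h1 1 (by omega)
    rw [coeff_one_sub hτ] at h2
    exact hw (eq_zero_of_pow_eq_zero h2)

end Pool.Agent.Q98.SP
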