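import Pool.Agent.Q41.SP.Stm3

/-!
Project SP (helper41), N2: pigeonhole.
-/

set_option autoImplicit false

namespace Pool.Agent.Q98.SP

open Finset

/-- the translate -/
def tra (m₀ : ℕ) (W : Finset ℕ) (a : ℕ) : Finset ℕ := W.image (fun i => i + a * m₀)

theorem card_tra (m₀ : ℕ) (W : Finset ℕ) (a : ℕ) : (tra m₀ W a).card = W.card :=
  card_image_of_injective _ (add_left_injective _)

theorem inter_tra {m₀ : ℕ} {W : Finset ℕ} {a k : ℕ} (hak : a < k) :
    (tra m₀ W a ∩ tra m₀ W k).card ≤ (W.filter fun i => i + (k - a) * m₀ ∈ W).card := by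
  have h1 : tra m₀ W a ∩ tra m₀ W k ⊆
      (W.filter fun i => i + (k - a) * m₀ ∈ W).image (fun i => i + k * m₀) := by
    intro x hx
    unfold tra at hx
    rw [mem_inter, mem_image, mem_image] at hx
    obtain ⟨⟨w, hw, hwx⟩, w', hw', hwx'⟩ := hx
    rw [mem_image]
    refine ⟨w', mem_filter.2 ⟨hw', ?_⟩, hwx'⟩
    have h2 : (k - a) * m₀ + a * m₀ = k * m₀ := by
      rw [← add_mul, Nat.sub_add_cancel hak.le]
    have h3 : w' + (k - a) * m₀ = w := by omega
    rw [h3]
    exact hw
  exact (card_le_card h1).trans card_image_le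

theorem t_pigP : Pool.Agent.Q41.SP.S_pigP := by
  intro m₀ ε hm hε
  obtain ⟨T, hT⟩ := exists_nat_ge (2 / ε)
  refine ⟨m₀ * T, 1 / (4 * ((T : ℝ) + 1) ^ 2), 2 * (m₀ * T) + 1, by positivity, ?_⟩
  intro n hn W hW hcard
  by_contra hcon
  push Not at hcon
  have hK : ∀ a k, a < k → k ≤ T →
      ((tra m₀ W a ∩ tra m₀ W k).card : ℝ) ≤ 1 / (4 * ((T : ℝ) + 1) ^ 2) * n := by
    intro a k hak hk
    have h1 : (k - a) * m₀ ≤ m₀ * T := by
      rw [mul_comm m₀]
      exact Nat.mul_le_mul_right _ (by omega)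
    have h2 : 1 ≤ (k - a) * m₀ := Nat.mul_pos (by omega) hm
    have h3 := hcon ((k - a) * m₀) h2 h1 (dvd_mul_left _ _)
    have h4 : ((tra m₀ W a ∩ tra m₀ W k).card : ℝ) ≤
        ((W.filter fun i => i + (k - a) * m₀ ∈ W).card : ℝ) := by
      exact_mod_cast inter_tra hak
    exact h4.trans h3.le
  set K : ℝ := 1 / (4 * ((T : ℝ) + 1) ^ 2) * n with hKdef
  have hK0 : 0 ≤ K := by positivity
  have key : ∀ k : ℕ, k ≤ T + 1 → (k : ℝ) * W.card ≤
      (((range k).biUnion (tra m₀ W)).card : ℝ) + (k : ℝ) ^ 2 * K := by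
    intro k
    induction k with
    | zero => intro _; simp
    | succ k ih =>
      intro hk
      have h1 := ih (by omega)
      have h2 : (range (k + 1)).biUnion (tra m₀ W) = (range k).biUnion (tra m₀ W) ∪ tra m₀ W k := by
        rw [range_add_one, biUnion_insert, union_comm]
      have h3 := card_union_add_card_inter ((range k).biUnion (tra m₀ W)) (tra m₀ W k)
      rw [← h2, card_tra] at h3
      have h4 : (((range k).biUnion (tra m₀ W) ∩ tra m₀ W k).card : ℝ) ≤ k * K := by
        rw [biUnion_inter]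
        calc (((range k).biUnion fun a => tra m₀ W a ∩ tra m₀ W k).card : ℝ)
            ≤ ((∑ a ∈ range k, (tra m₀ W a ∩ tra m₀ W k).card : ℕ) : ℝ) := by
              exact_mod_cast card_biUnion_le
          _ = ∑ a ∈ range k, ((tra m₀ W a ∩ tra m₀ W k).card : ℝ) := by push_cast; rfl
          _ ≤ ∑ _a ∈ range k, K := sum_le_sum fun a ha => hK a k (mem_range.1 ha) (by omega)
          _ = k * K := by rw [sum_const, card_range, nsmul_eq_mul]
      have h5 : (((range (k + 1)).biUnion (tra m₀ W)).card : ℝ) +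
          (((range k).biUnion (tra m₀ W) ∩ tra m₀ W k).card : ℝ) =
          (((range k).biUnion (tra m₀ W)).card : ℝ) + W.card := by exact_mod_cast h3
      push_cast
      nlinarith [mul_nonneg (Nat.cast_nonneg (α := ℝ) k) hK0]
  have h1 := key (T + 1) le_rfl
  have h2 : (((range (T + 1)).biUnion (tra m₀ W)).card : ℝ) ≤ n + m₀ * T := by
    have h3 : (range (T + 1)).biUnion (tra m₀ W) ⊆ range (n + m₀ * T) := by
      intro x hx
      rw [mem_biUnion] at hx
      obtain ⟨a, ha, hx⟩ := hx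
      unfold tra at hx
      rw [mem_image] at hx
      obtain ⟨w, hw, rfl⟩ := hx
      have h4 := mem_range.1 (hW hw)
      have h5 : a * m₀ ≤ m₀ * T := by
        rw [mul_comm m₀]
        exact Nat.mul_le_mul_right _ (by have := mem_range.1 ha; omega)
      rw [mem_range]
      omega
    have h4 := card_le_card h3
    rw [card_range] at h4
    exact_mod_cast h4
  have h3 : ((T : ℝ) + 1) ^ 2 * K = n / 4 := by
    rw [hKdef]
    field_simp
  have h4 : 2 * (n : ℝ) ≤ ((T : ℝ) + 1) * W.card := by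
    rw [div_le_iff₀ hε] at hT
    calc 2 * (n : ℝ) ≤ (T * ε) * n := mul_le_mul_of_nonneg_right hT (Nat.cast_nonneg _)
      _ ≤ ((T + 1) * ε) * n := by
        refine mul_le_mul_of_nonneg_right ?_ (Nat.cast_nonneg _)
        nlinarith
      _ = (T + 1) * (ε * n) := by ring
      _ ≤ (T + 1) * W.card := mul_le_mul_of_nonneg_left hcard (by positivity)
  push_cast at h1
  rw [h3] at h1
  have h5 : 2 * ((m₀ : ℝ) * T) + 1 ≤ n := by exact_mod_cast hn
  nlinarith

end Pool.Agent.Q98.SP
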